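import Pool.Agent.Helper8_CR.BStmts

/-!
# Squad CR, module CUB: every polynomial is stably isomorphic to a cubic polynomial
-/

set_option autoImplicit false

namespace Pool.Agent.Helper8_CR.H67

open MvPolynomial Pool.Agent.Helper8_CR

variable {k : Type} [Field k] {σ τ : Type}

/-- the measure -/
noncomputable def mu (f : MvPolynomial σ k) : ℕ :=
  ∑ m ∈ f.support, if 4 ≤ m.degree then 3 ^ m.degree else 0

theorem mu_add (p q : MvPolynomial σ k) : mu (p + q) ≤ mu p + mu q := by
  classical
  refine (Finset.sum_le_sum_of_subset (MvPolynomial.support_add (p := p) (q := q))).trans ?_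
  have := Finset.sum_union_inter (s₁ := p.support) (s₂ := q.support)
    (f := fun m : σ →₀ ℕ => if 4 ≤ m.degree then 3 ^ m.degree else 0)
  rw [mu, mu]
  omega

theorem mu_rename (e : σ → τ) (he : Function.Injective e) (p : MvPolynomial σ k) :
    mu (rename e p) = mu p := by
  classical
  rw [mu, support_rename_of_injective he, Finset.sum_image, mu]
  · refine Finset.sum_congr rfl fun m _ => ?_
    rw [Finsupp.degree_mapDomain]
  · exact fun a _ b _ h => Finsupp.mapDomain_injective he h

theorem mu_monomial_le (m : σ →₀ ℕ) (c : k) : mu (monomial m c) ≤ 3 ^ m.degree := by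
  classical
  refine (Finset.sum_le_sum_of_subset (support_monomial_subset)).trans ?_
  rw [Finset.sum_singleton]
  split_ifs
  · exact le_rfl
  · exact Nat.zero_le _

theorem mu_monomial_zero (m : σ →₀ ℕ) (c : k) (h : m.degree < 4) : mu (monomial m c) = 0 := by
  classical
  refine Nat.le_zero.mp ((Finset.sum_le_sum_of_subset (support_monomial_subset)).trans ?_)
  rw [Finset.sum_singleton, if_neg (by omega)]

theorem mu_sub_coeff (f : MvPolynomial σ k) (m : σ →₀ ℕ) (hm : m ∈ f.support)
    (h4 : 4 ≤ m.degree) : mu (f - monomial m (coeff m f)) + 3 ^ m.degree = mu f := by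
  classical
  have h1 : (f - monomial m (coeff m f)).support = f.support.erase m := by
    ext n
    rw [mem_support_iff, coeff_sub, coeff_monomial, Finset.mem_erase, mem_support_iff]
    by_cases hn : m = n
    · subst hn
      simp
    · rw [if_neg hn, sub_zero]
      exact ⟨fun h => ⟨fun h' => hn h'.symm, h⟩, fun h => h.2⟩
  rw [mu, h1, mu, ← Finset.sum_erase_add _ _ hm, if_pos h4]

/-- the automorphism `u ↦ u + a`, `v ↦ v + b` of the stabilization with `a`, `b` in the old
variables -/
noncomputable def tr (a b : MvPolynomial σ k) :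
    MvPolynomial (SV σ 1) k →ₐ[k] MvPolynomial (SV σ 1) k :=
  aeval (Sum.elim (fun i => X (Sum.inl i)) (Sum.elim
    (fun i => X (Sum.inr (Sum.inl i)) + rename Sum.inl a)
    (fun i => X (Sum.inr (Sum.inr i)) + rename Sum.inl b)))

theorem tr_rename (a b p : MvPolynomial σ k) : tr a b (rename Sum.inl p) = rename Sum.inl p := by
  have : (tr a b).comp (rename Sum.inl) = rename Sum.inl := by
    refine algHom_ext fun i => ?_
    rw [AlgHom.comp_apply, rename_X, tr, aeval_X]
    rfl
  exact DFunLike.congr_fun this p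

theorem tr_comp (a b : MvPolynomial σ k) : (tr a b).comp (tr (-a) (-b)) = AlgHom.id k _ := by
  refine algHom_ext fun i => ?_
  rw [AlgHom.comp_apply, AlgHom.id_apply]
  rcases i with i | i | i
  · rw [tr, tr, aeval_X]
    simp
  · have : tr (-a) (-b) (X (Sum.inr (Sum.inl i))) =
        X (Sum.inr (Sum.inl i)) + rename Sum.inl (-a) := by
      rw [tr, aeval_X]; rfl
    rw [this, map_add, tr_rename]
    have : tr a b (X (Sum.inr (Sum.inl i))) =
        X (Sum.inr (Sum.inl i)) + rename Sum.inl a := by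
      rw [tr, aeval_X]; rfl
    rw [this, map_neg]
    ring
  · have : tr (-a) (-b) (X (Sum.inr (Sum.inr i))) =
        X (Sum.inr (Sum.inr i)) + rename Sum.inl (-b) := by
      rw [tr, aeval_X]; rfl
    rw [this, map_add, tr_rename]
    have : tr a b (X (Sum.inr (Sum.inr i))) =
        X (Sum.inr (Sum.inr i)) + rename Sum.inl b := by
      rw [tr, aeval_X]; rfl
    rw [this, map_neg]
    ring

/-- the automorphism -/
noncomputable def trE (a b : MvPolynomial σ k) :
    MvPolynomial (SV σ 1) k ≃ₐ[k] MvPolynomial (SV σ 1) k :=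
  AlgEquiv.ofAlgHom (tr a b) (tr (-a) (-b)) (tr_comp a b) (by
    have := tr_comp (-a) (-b)
    rwa [neg_neg, neg_neg] at this)

theorem trE_stab (a b f : MvPolynomial σ k) : trE a b (stab f 1) =
    rename Sum.inl (f + a * b) + X (Sum.inr (Sum.inl 0)) * X (Sum.inr (Sum.inr 0))
      + X (Sum.inr (Sum.inl 0)) * rename Sum.inl b + rename Sum.inl a * X (Sum.inr (Sum.inr 0)) := by
  have h : trE a b (stab f 1) = tr a b (stab f 1) := rfl
  have h1 : tr a b (X (Sum.inr (Sum.inl 0))) =
      X (Sum.inr (Sum.inl 0)) + rename Sum.inl a := by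
    rw [tr, aeval_X]; rfl
  have h2 : tr a b (X (Sum.inr (Sum.inr 0))) =
      X (Sum.inr (Sum.inr 0)) + rename Sum.inl b := by
    rw [tr, aeval_X]; rfl
  rw [h, stab, Fin.sum_univ_one, map_add, tr_rename, map_mul, h1, h2, map_add, map_mul]
  ring

theorem mu_step (f : MvPolynomial σ k) (h : mu f ≠ 0) :
    ∃ a b : MvPolynomial σ k, mu (trE a b (stab f 1)) < mu f := by
  classical
  obtain ⟨m, hm, h4⟩ : ∃ m ∈ f.support, 4 ≤ m.degree := by
    by_contra hcon
    push Not at hcon
    exact h (Finset.sum_eq_zero fun m hm => if_neg (by have := hcon m hm; omega))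
  obtain ⟨g, hg, hg2⟩ := Finsupp.exists_le_degree_eq m 2 (by omega)
  have hmg : g + (m - g) = m := add_tsub_cancel_of_le hg
  have hd : (m - g).degree + 2 = m.degree := by
    have := congrArg Finsupp.degree hmg
    rw [map_add, hg2] at this
    omega
  refine ⟨monomial g 1, monomial (m - g) (-(coeff m f)), ?_⟩
  rw [trE_stab]
  have e1 : f + monomial g 1 * monomial (m - g) (-(coeff m f)) = f - monomial m (coeff m f) := by
    rw [monomial_mul, hmg, one_mul, map_neg, sub_eq_add_neg]
  have e2 : (X (Sum.inr (Sum.inl 0)) * X (Sum.inr (Sum.inr 0)) : MvPolynomial (SV σ 1) k) =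
      monomial (Finsupp.single (Sum.inr (Sum.inl 0)) 1 + Finsupp.single (Sum.inr (Sum.inr 0)) 1)
        1 := by
    rw [X, X, monomial_mul, one_mul]
  have e3 : (X (Sum.inr (Sum.inl 0)) * rename Sum.inl (monomial (m - g) (-(coeff m f))) :
      MvPolynomial (SV σ 1) k) =
      monomial (Finsupp.single (Sum.inr (Sum.inl 0)) 1 + (m - g).mapDomain Sum.inl)
        (-(coeff m f)) := by
    rw [X, rename_monomial, monomial_mul, one_mul]
  have e4 : (rename Sum.inl (monomial g 1) * X (Sum.inr (Sum.inr 0)) :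
      MvPolynomial (SV σ 1) k) =
      monomial (g.mapDomain Sum.inl + Finsupp.single (Sum.inr (Sum.inr 0)) 1) 1 := by
    rw [X, rename_monomial, monomial_mul, one_mul]
  rw [e1, e2, e3, e4]
  have i1 := mu_rename (k := k) (Sum.inl : σ → SV σ 1) Sum.inl_injective
    (f - monomial m (coeff m f))
  have i2 := mu_monomial_zero (k := k) (Finsupp.single (Sum.inr (Sum.inl 0)) 1 +
    Finsupp.single (Sum.inr (Sum.inr 0)) 1 : SV σ 1 →₀ ℕ) 1 (by
      rw [map_add, Finsupp.degree_single, Finsupp.degree_single]; norm_num)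
  have i3 := mu_monomial_le (k := k) (Finsupp.single (Sum.inr (Sum.inl 0)) 1 +
    (m - g).mapDomain Sum.inl : SV σ 1 →₀ ℕ) (-(coeff m f))
  have i4 := mu_monomial_zero (k := k) (g.mapDomain Sum.inl +
    Finsupp.single (Sum.inr (Sum.inr 0)) 1 : SV σ 1 →₀ ℕ) 1 (by
      rw [map_add, Finsupp.degree_single, Finsupp.degree_mapDomain, hg2]; norm_num)
  have i5 := mu_sub_coeff f m hm h4
  rw [map_add, Finsupp.degree_single, Finsupp.degree_mapDomain] at i3
  have i6 : 3 ^ m.degree = 3 * 3 ^ (1 + (m - g).degree) := by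
    rw [← pow_succ']
    congr 1
    omega
  have i7 : 0 < 3 ^ (1 + (m - g).degree) := by positivity
  refine lt_of_le_of_lt (mu_add _ _) ?_
  refine lt_of_le_of_lt (Nat.add_le_add_right (mu_add _ _) _) ?_
  refine lt_of_le_of_lt (Nat.add_le_add_right (Nat.add_le_add_right (mu_add _ _) _) _) ?_
  rw [i1, i2, i4]
  omega

theorem totalDegree_stab (f : MvPolynomial σ k) (h : mu f = 0) (r : ℕ) :
    (stab f r).totalDegree ≤ 3 := by
  classical
  have h1 : f.totalDegree ≤ 3 := by
    refine Finset.sup_le fun m hm => ?_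
    by_contra hcon
    push Not at hcon
    have h2 := Finset.sum_eq_zero_iff.mp h m hm
    have h3 : (m.sum fun _ e => e) = m.degree := rfl
    rw [h3] at hcon
    rw [if_pos (by omega)] at h2
    exact absurd h2 (by positivity)
  refine (totalDegree_add _ _).trans (max_le ((totalDegree_rename_le _ _).trans h1) ?_)
  refine (totalDegree_finsetSum_le fun j _ => ?_)
  refine (totalDegree_mul _ _).trans ?_
  rw [totalDegree_X, totalDegree_X]
  norm_num

theorem cub (hR : RenStmt) : CubStmt := by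
  intro k _ σ _ f
  obtain ⟨hR1, hR2⟩ := hR
  have key : ∀ n : ℕ, ∀ (σ : Type) (f : MvPolynomial σ k), mu f = n → ∃ r₀ : ℕ, ∀ r : ℕ, r₀ ≤ r →
      ∃ F : MvPolynomial (SV σ r) k, F.totalDegree ≤ 3 ∧
        ∃ Φ : MvPolynomial (SV σ r) k ≃ₐ[k] MvPolynomial (SV σ r) k, Φ F = stab f r := by
    intro n
    induction n using Nat.strong_induction_on with
    | _ n ih =>
      intro σ f hf
      by_cases h0 : mu f = 0
      · exact ⟨0, fun r _ => ⟨stab f r, totalDegree_stab f h0 r, AlgEquiv.refl, rfl⟩⟩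
      · obtain ⟨a, b, hab⟩ := mu_step f h0
        obtain ⟨r₀, hr₀⟩ := ih _ (hf ▸ hab) (SV σ 1) (trE a b (stab f 1)) rfl
        refine ⟨1 + r₀, fun r hr => ?_⟩
        obtain ⟨s, rfl⟩ : ∃ s, r = 1 + s := ⟨r - 1, by omega⟩
        obtain ⟨F', hF', Φ', hΦ'⟩ := hr₀ s (by omega)
        obtain ⟨Φ₁, hΦ₁, hdeg⟩ := hR1 k σ f 1 s
        obtain ⟨Ψ, hΨ⟩ := hR2 k (SV σ 1) (SV σ 1) (trE a b) (stab f 1) s
        refine ⟨Φ₁ F', (hdeg F').trans_le hF', Φ₁.symm.trans (Φ'.trans (Ψ.symm.trans Φ₁)), ?_⟩
        rw [AlgEquiv.trans_apply, AlgEquiv.trans_apply, AlgEquiv.trans_apply,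
          AlgEquiv.symm_apply_apply, hΦ', ← hΨ, AlgEquiv.symm_apply_apply, hΦ₁]
  exact key _ σ f rfl

end Pool.Agent.Helper8_CR.H67
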