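import Pool.Agent.Helper8_CR.BStmts

/-!
# Squad CR, module TSB: the b-function of the stabilization
-/

set_option autoImplicit false

namespace Pool.Agent.Helper8_CR.H67

open MvPolynomial Pool.Agent.Helper8_CR

theorem pder_X_cases {τ : Type} (i j : τ) : (pderiv i (X j : MvPolynomial τ ℂ)) = 0 ∨
    (pderiv i (X j : MvPolynomial τ ℂ)) = 1 := by
  by_cases h : j = i
  · subst h; right; exact pderiv_X_self _
  · left; exact pderiv_X_of_ne h

theorem pder_comm {τ : Type} (i j : τ) (p : MvPolynomial τ ℂ) :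
    pderiv i (pderiv j p) = pderiv j (pderiv i p) := by
  have h : ⁅(pderiv i : Derivation ℂ (MvPolynomial τ ℂ) (MvPolynomial τ ℂ)),
      (pderiv j : Derivation ℂ (MvPolynomial τ ℂ) (MvPolynomial τ ℂ))⁆ = 0 := by
    apply derivation_ext
    intro k
    rw [Derivation.commutator_apply, Derivation.zero_apply]
    rcases pder_X_cases i k with h1 | h1 <;>
      rcases pder_X_cases j k with h2 | h2 <;> simp [h1, h2]
  have h2 := DFunLike.congr_fun h p
  rw [Derivation.commutator_apply, Derivation.zero_apply, sub_eq_zero] at h2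
  exact h2

section DS

variable {σ : Type}

theorem mulOp_mem (p : MvPolynomial σ ℂ) : (fun _ => mulOp p : OpF σ) ∈ DS σ :=
  Algebra.subset_adjoin (Or.inl ⟨p, rfl⟩)

theorem dOp_mem (i : σ) : (fun _ => dOp i : OpF σ) ∈ DS σ :=
  Algebra.subset_adjoin (Or.inr (Or.inl ⟨i, rfl⟩))

theorem s_mem : (fun n : ℕ => (n : ℂ) • (1 : Module.End ℂ (MvPolynomial σ ℂ)) : OpF σ) ∈ DS σ :=
  Algebra.subset_adjoin (Or.inr (Or.inr rfl))

/-- polynomials in `s` -/
theorem ps_mem (c : Polynomial ℂ) :
    (fun n : ℕ => (c.eval (n : ℂ)) • (1 : Module.End ℂ (MvPolynomial σ ℂ)) : OpF σ) ∈ DS σ := by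
  induction c using Polynomial.induction_on' with
  | add p q hp hq =>
    have e : (fun n : ℕ => ((p + q).eval (n : ℂ)) • (1 : Module.End ℂ (MvPolynomial σ ℂ)) : OpF σ)
        = (fun n : ℕ => (p.eval (n : ℂ)) • (1 : Module.End ℂ (MvPolynomial σ ℂ))) +
          (fun n : ℕ => (q.eval (n : ℂ)) • (1 : Module.End ℂ (MvPolynomial σ ℂ))) := by
      funext n
      rw [Pi.add_apply, Polynomial.eval_add, add_smul]
    rw [e]
    exact add_mem hp hq
  | monomial m a =>
    have e : (fun n : ℕ => ((Polynomial.monomial m a).eval (n : ℂ)) •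
        (1 : Module.End ℂ (MvPolynomial σ ℂ)) : OpF σ)
        = a • (fun n : ℕ => (n : ℂ) • (1 : Module.End ℂ (MvPolynomial σ ℂ))) ^ m := by
      funext n
      rw [Pi.smul_apply, Pi.pow_apply, Polynomial.eval_monomial, smul_pow, one_pow, smul_smul]
    rw [e]
    exact Subalgebra.smul_mem _ (pow_mem s_mem m) a

end DS

section stab

variable {σ : Type} {r : ℕ}

/-- the variables `u_j` -/
noncomputable abbrev U (j : Fin r) : MvPolynomial (SV σ r) ℂ := X (Sum.inr (Sum.inl j))

/-- the variables `v_j` -/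
noncomputable abbrev W (j : Fin r) : MvPolynomial (SV σ r) ℂ := X (Sum.inr (Sum.inr j))

/-- `∂_{u_j}` -/
noncomputable abbrev du (j : Fin r) :
    Derivation ℂ (MvPolynomial (SV σ r) ℂ) (MvPolynomial (SV σ r) ℂ) :=
  pderiv (Sum.inr (Sum.inl j))

/-- `θ` -/
noncomputable def th (σ : Type) (r : ℕ) :
    Derivation ℂ (MvPolynomial (SV σ r) ℂ) (MvPolynomial (SV σ r) ℂ) :=
  ∑ j : Fin r, (U j : MvPolynomial (SV σ r) ℂ) • (du j : Derivation ℂ (MvPolynomial (SV σ r) ℂ)
    (MvPolynomial (SV σ r) ℂ))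

theorem th_apply (x : MvPolynomial (SV σ r) ℂ) : th σ r x = ∑ j : Fin r, U j * du j x := by
  have h : th σ r x = Derivation.coeFnAddMonoidHom (th σ r) x := rfl
  rw [h, th, map_sum, Finset.sum_apply]
  rfl

theorem th_mem : (fun _ => (th σ r).toLinearMap : OpF (SV σ r)) ∈ DS (SV σ r) := by
  have e : (fun _ => (th σ r).toLinearMap : OpF (SV σ r)) =
      ∑ j : Fin r, (fun _ => mulOp (U j) : OpF (SV σ r)) * (fun _ => dOp (Sum.inr (Sum.inl j))) := by
    funext n
    rw [Finset.sum_apply]
    refine LinearMap.ext fun x => ?_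
    rw [LinearMap.sum_apply]
    exact th_apply x
  rw [e]
  exact sum_mem fun j _ => mul_mem (mulOp_mem _) (dOp_mem _)

theorem du_th (j : Fin r) (x : MvPolynomial (SV σ r) ℂ) :
    du j (th σ r x) = th σ r (du j x) + du j x := by
  classical
  rw [th_apply, th_apply, map_sum]
  have : ∀ i : Fin r, du j (U i * du i x) = U i * du i (du j x) + (if i = j then du j x else 0) := by
    intro i
    rw [Derivation.leibniz, smul_eq_mul, smul_eq_mul, pder_comm]
    by_cases h : i = j
    · subst h
      rw [if_pos rfl, pderiv_X_self, mul_one]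
    · rw [if_neg h, pderiv_X_of_ne, mul_zero]
      intro h'
      exact h (Sum.inl_injective (Sum.inr_injective h'))
  rw [Finset.sum_congr rfl fun i _ => this i, Finset.sum_add_distrib, Finset.sum_ite_eq' Finset.univ j]
  simp

theorem th_rename (q : MvPolynomial σ ℂ) : th σ r (rename Sum.inl q) = 0 := by
  classical
  rw [th_apply]
  refine Finset.sum_eq_zero fun j _ => ?_
  rw [pderiv_eq_zero_of_notMem_vars, mul_zero]
  intro h
  have := vars_rename _ _ h
  rw [Finset.mem_image] at this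
  obtain ⟨i, _, hi⟩ := this
  cases hi

/-- `∑ u_j v_j` -/
noncomputable def QQ (σ : Type) (r : ℕ) : MvPolynomial (SV σ r) ℂ := ∑ j : Fin r, U j * W j

theorem th_QQ : th σ r (QQ σ r) = QQ σ r := by
  classical
  rw [th_apply, QQ]
  refine Finset.sum_congr rfl fun j _ => ?_
  rw [map_sum, Finset.sum_eq_single j]
  · rw [Derivation.leibniz, smul_eq_mul, smul_eq_mul, pderiv_X_self, pderiv_X_of_ne, mul_one,
      mul_zero, zero_add]
    intro h'
    cases h'
  · intro i _ hij
    rw [Derivation.leibniz, smul_eq_mul, smul_eq_mul, pderiv_X_of_ne, pderiv_X_of_ne, mul_zero,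
      mul_zero, zero_add]
    · intro h'
      exact hij (Sum.inl_injective (Sum.inr_injective h'))
    · intro h'
      cases h'
  · intro h
    exact absurd (Finset.mem_univ j) h

theorem th_QQ_pow (k : ℕ) : th σ r (QQ σ r ^ k) = (k : ℂ) • QQ σ r ^ k := by
  rw [Derivation.leibniz_pow, th_QQ]
  rcases k with _ | k
  · simp
  · rw [Nat.add_sub_cancel, smul_eq_mul, ← pow_succ, Nat.cast_smul_eq_nsmul]

theorem dx_QQ_pow (k : ℕ) (i : σ) : pderiv (Sum.inl i) (QQ σ r ^ k) = 0 := by
  have h : pderiv (Sum.inl i) (QQ σ r) = 0 := by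
    rw [QQ, map_sum]
    refine Finset.sum_eq_zero fun j _ => ?_
    rw [Derivation.leibniz, pderiv_X_of_ne, pderiv_X_of_ne, smul_zero, smul_zero, zero_add]
    · intro h'
      cases h'
    · intro h'
      cases h'
  rw [Derivation.leibniz_pow, h, smul_zero, smul_zero]

/-- the lift of an operator of `D[s]` -/
theorem hat (r : ℕ) (D : OpF σ) (hD : D ∈ DS σ) : ∃ D' ∈ DS (SV σ r), ∀ n k : ℕ, k ≤ n →
    ∀ (q : MvPolynomial σ ℂ) (m : MvPolynomial (SV σ r) ℂ),
      (∀ i : σ, pderiv (Sum.inl i) m = 0) → th σ r m = (k : ℂ) • m →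
        D' n (rename Sum.inl q * m) = rename Sum.inl (D (n - k) q) * m := by
  induction hD using Algebra.adjoin_induction with
  | mem D hD =>
    rcases hD with ⟨p, rfl⟩ | ⟨i, rfl⟩ | rfl
    · refine ⟨_, mulOp_mem (rename Sum.inl p), fun n k _ q m _ _ => ?_⟩
      simp only [LinearMap.mulLeft_apply, map_mul]
      ring
    · refine ⟨_, dOp_mem (Sum.inl i), fun n k _ q m hm _ => ?_⟩
      show pderiv (Sum.inl i) (rename Sum.inl q * m) = rename Sum.inl (pderiv i q) * m
      rw [Derivation.leibniz, hm i, smul_zero, zero_add, pderiv_rename Sum.inl_injective,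
        smul_eq_mul, mul_comm]
    · refine ⟨(fun n : ℕ => (n : ℂ) • (1 : Module.End ℂ (MvPolynomial (SV σ r) ℂ))) -
        (fun _ => (th σ r).toLinearMap), sub_mem s_mem th_mem, fun n k hk q m _ hm => ?_⟩
      show (n : ℂ) • (rename Sum.inl q * m) - th σ r (rename Sum.inl q * m) =
        rename Sum.inl (((n - k : ℕ) : ℂ) • q) * m
      rw [Derivation.leibniz, hm, th_rename, smul_zero, add_zero, smul_eq_mul, mul_smul_comm,
        ← sub_smul, map_smul, smul_mul_assoc, Nat.cast_sub hk]
  | algebraMap c =>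
    refine ⟨algebraMap ℂ (OpF (SV σ r)) c, Subalgebra.algebraMap_mem _ c,
      fun n k _ q m _ _ => ?_⟩
    show c • (rename Sum.inl q * m) = rename Sum.inl (c • q) * m
    rw [map_smul, smul_mul_assoc]
  | add D E _ _ ihD ihE =>
    obtain ⟨D', hD', h1⟩ := ihD
    obtain ⟨E', hE', h2⟩ := ihE
    refine ⟨D' + E', add_mem hD' hE', fun n k hk q m hm1 hm2 => ?_⟩
    show D' n _ + E' n _ = rename Sum.inl (D (n - k) q + E (n - k) q) * m
    rw [h1 n k hk q m hm1 hm2, h2 n k hk q m hm1 hm2, map_add, add_mul]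
  | mul D E _ _ ihD ihE =>
    obtain ⟨D', hD', h1⟩ := ihD
    obtain ⟨E', hE', h2⟩ := ihE
    refine ⟨D' * E', mul_mem hD' hE', fun n k hk q m hm1 hm2 => ?_⟩
    show D' n (E' n _) = rename Sum.inl (D (n - k) (E (n - k) q)) * m
    rw [h2 n k hk q m hm1 hm2, h1 n k hk _ m hm1 hm2]

/-- `n - θ` -/
noncomputable def TT (σ : Type) (r : ℕ) (n : ℕ) : Module.End ℂ (MvPolynomial (SV σ r) ℂ) :=
  (n : ℂ) • 1 - (th σ r).toLinearMap

theorem TT_apply (n : ℕ) (x : MvPolynomial (SV σ r) ℂ) :
    TT σ r n x = (n : ℂ) • x - th σ r x := rfl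

theorem sum_du_U (x : MvPolynomial (SV σ r) ℂ) :
    ∑ j : Fin r, du j (U j * x) = th σ r x + (r : ℂ) • x := by
  rw [th_apply]
  have : ∀ j : Fin r, du j (U j * x) = U j * du j x + x := by
    intro j
    rw [Derivation.leibniz, smul_eq_mul, smul_eq_mul, pderiv_X_self, mul_one]
  rw [Finset.sum_congr rfl fun j _ => this j, Finset.sum_add_distrib, Finset.sum_const,
    Finset.card_univ, Fintype.card_fin, Nat.cast_smul_eq_nsmul]

theorem aeval_Xmul {V : Type} [AddCommGroup V] [Module ℂ V] (T : Module.End ℂ V)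
    (c : Polynomial ℂ) (x : V) :
    Polynomial.aeval T (Polynomial.X * c) x = T (Polynomial.aeval T c x) := by
  have h : Polynomial.aeval T (Polynomial.X * c) = T * Polynomial.aeval T c := by
    rw [map_mul, Polynomial.aeval_X]
  rw [h]
  rfl

/-- the operator lemma -/
theorem opl (c : Polynomial ℂ) : ∃ G ∈ DS (SV σ r), ∀ (n : ℕ) (x : MvPolynomial (SV σ r) ℂ),
    Polynomial.aeval (TT σ r n) c x = (c.eval ((n : ℂ) + r)) • x +
      ∑ j : Fin r, du j (G n (U j * x)) := by
  induction c using Polynomial.induction_on with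
  | C a =>
    refine ⟨0, zero_mem _, fun n x => ?_⟩
    rw [Polynomial.aeval_C, Polynomial.eval_C]
    simp [Module.algebraMap_end_apply]
  | add p q hp hq =>
    obtain ⟨G, hG, h1⟩ := hp
    obtain ⟨H, hH, h2⟩ := hq
    refine ⟨G + H, add_mem hG hH, fun n x => ?_⟩
    rw [map_add, LinearMap.add_apply, h1, h2, Polynomial.eval_add, add_smul]
    have : ∀ j : Fin r, du j ((G + H) n (U j * x)) = du j (G n (U j * x)) + du j (H n (U j * x)) := by
      intro j
      rw [Pi.add_apply, LinearMap.add_apply, map_add]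
    rw [Finset.sum_congr rfl fun j _ => this j, Finset.sum_add_distrib]
    abel
  | monomial m a h =>
    obtain ⟨G, hG, h1⟩ := h
    set c : Polynomial ℂ := Polynomial.C a * Polynomial.X ^ m with hc
    have hcc : Polynomial.C a * Polynomial.X ^ (m + 1) = Polynomial.X * c := by
      rw [hc, pow_succ]; ring
    refine ⟨- (fun n : ℕ => ((c.comp (Polynomial.X + Polynomial.C (r : ℂ))).eval (n : ℂ)) •
        (1 : Module.End ℂ (MvPolynomial (SV σ r) ℂ))) +
      ((fun n : ℕ => ((Polynomial.X + 1 : Polynomial ℂ).eval (n : ℂ)) •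
        (1 : Module.End ℂ (MvPolynomial (SV σ r) ℂ))) - (fun _ => (th σ r).toLinearMap)) * G,
      add_mem (neg_mem (ps_mem _)) (mul_mem (sub_mem (ps_mem _) th_mem) hG), fun n x => ?_⟩
    clear_value c
    rw [hcc, aeval_Xmul, h1, Polynomial.eval_mul, Polynomial.eval_X]
    have key : ∀ j : Fin r, du j (((- (fun n : ℕ => ((c.comp (Polynomial.X +
        Polynomial.C (r : ℂ))).eval (n : ℂ)) •
        (1 : Module.End ℂ (MvPolynomial (SV σ r) ℂ))) +
      ((fun n : ℕ => ((Polynomial.X + 1 : Polynomial ℂ).eval (n : ℂ)) •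
        (1 : Module.End ℂ (MvPolynomial (SV σ r) ℂ))) - (fun _ => (th σ r).toLinearMap)) * G :
        OpF (SV σ r)) n) (U j * x)) =
        - (c.eval ((n : ℂ) + r) • du j (U j * x)) + TT σ r n (du j (G n (U j * x))) := by
      intro j
      have e1 : ((- (fun n : ℕ => ((c.comp (Polynomial.X +
        Polynomial.C (r : ℂ))).eval (n : ℂ)) •
        (1 : Module.End ℂ (MvPolynomial (SV σ r) ℂ))) +
      ((fun n : ℕ => ((Polynomial.X + 1 : Polynomial ℂ).eval (n : ℂ)) •
        (1 : Module.End ℂ (MvPolynomial (SV σ r) ℂ))) - (fun _ => (th σ r).toLinearMap)) * G :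
        OpF (SV σ r)) n) (U j * x) =
        - ((c.comp (Polynomial.X + Polynomial.C (r : ℂ))).eval (n : ℂ) • (U j * x)) +
        (((Polynomial.X + 1 : Polynomial ℂ).eval (n : ℂ)) • (G n (U j * x)) -
          th σ r (G n (U j * x))) := rfl
      rw [e1, map_add, map_neg, Derivation.map_smul, map_sub, Derivation.map_smul, du_th, TT_apply,
        Polynomial.eval_comp]
      simp only [Polynomial.eval_add, Polynomial.eval_X, Polynomial.eval_C, Polynomial.eval_one]
      rw [add_smul, one_smul]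
      abel
    rw [Finset.sum_congr rfl fun j _ => key j, Finset.sum_add_distrib, Finset.sum_neg_distrib,
      ← Finset.smul_sum, sum_du_U, map_add, map_smul, map_sum, TT_apply]
    rw [← add_assoc]
    congr 1
    rw [smul_sub, smul_add, smul_smul, smul_smul, mul_comm ((n : ℂ) + r), mul_add, add_smul]
    abel

theorem aeval_TT (c : Polynomial ℂ) (n k : ℕ) (hk : k ≤ n) (q : MvPolynomial σ ℂ)
    (m : MvPolynomial (SV σ r) ℂ) (hm : th σ r m = (k : ℂ) • m) :
    Polynomial.aeval (TT σ r n) c (rename Sum.inl q * m) =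
      (c.eval ((n - k : ℕ) : ℂ)) • (rename Sum.inl q * m) := by
  have h0 : TT σ r n (rename Sum.inl q * m) = (((n - k : ℕ) : ℂ)) • (rename Sum.inl q * m) := by
    rw [TT_apply, Derivation.leibniz, hm, th_rename, smul_zero, add_zero, smul_eq_mul,
      mul_smul_comm, ← sub_smul, Nat.cast_sub hk]
  induction c using Polynomial.induction_on with
  | C a =>
    rw [Polynomial.aeval_C, Polynomial.eval_C, Module.algebraMap_end_apply]
  | add p q hp hq =>
    rw [map_add, LinearMap.add_apply, hp, hq, Polynomial.eval_add, add_smul]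
  | monomial j a h =>
    have hcc : Polynomial.C a * Polynomial.X ^ (j + 1) =
        Polynomial.X * (Polynomial.C a * Polynomial.X ^ j) := by
      rw [pow_succ]; ring
    rw [hcc, aeval_Xmul, h, map_smul, h0, smul_smul, Polynomial.eval_mul (p := Polynomial.X),
      Polynomial.eval_X, mul_comm]

theorem stab_eq (f : MvPolynomial σ ℂ) : stab f r = rename Sum.inl f + QQ σ r := rfl

theorem dv_stab (f : MvPolynomial σ ℂ) (j : Fin r) :
    pderiv (Sum.inr (Sum.inr j)) (stab f r) = U j := by
  classical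
  have h1 : pderiv (Sum.inr (Sum.inr j)) (rename Sum.inl f : MvPolynomial (SV σ r) ℂ) = 0 := by
    refine pderiv_eq_zero_of_notMem_vars fun h => ?_
    have := vars_rename _ _ h
    rw [Finset.mem_image] at this
    obtain ⟨i, _, hi⟩ := this
    cases hi
  rw [stab_eq, map_add, h1, zero_add, QQ, map_sum, Finset.sum_eq_single j]
  · rw [Derivation.leibniz, smul_eq_mul, smul_eq_mul, pderiv_X_self, pderiv_X_of_ne, mul_one,
      mul_zero, add_zero]
    intro h'
    cases h'
  · intro i _ hij
    rw [Derivation.leibniz, smul_eq_mul, smul_eq_mul, pderiv_X_of_ne, pderiv_X_of_ne, mul_zero,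
      mul_zero, zero_add]
    · intro h'
      cases h'
    · intro h'
      exact hij (Sum.inr_injective (Sum.inr_injective h'))
  · intro h
    exact absurd (Finset.mem_univ j) h

theorem dx_stab (f : MvPolynomial σ ℂ) (i : σ) :
    pderiv (Sum.inl i) (stab f r) = rename Sum.inl (pderiv i f) := by
  rw [stab_eq, map_add, pderiv_rename Sum.inl_injective]
  have := dx_QQ_pow (r := r) 1 i
  rw [pow_one] at this
  rw [this, add_zero]

/-- the power of the stabilization -/
theorem stab_pow (f : MvPolynomial σ ℂ) (n : ℕ) : stab f r ^ n =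
    ∑ k ∈ Finset.range (n + 1), (n.choose k : ℂ) • (rename Sum.inl (f ^ (n - k)) * QQ σ r ^ k) := by
  rw [stab_eq, add_comm, add_pow]
  refine Finset.sum_congr rfl fun k _ => ?_
  rw [map_pow, Nat.cast_smul_eq_nsmul, nsmul_eq_mul]
  ring

end stab

theorem tsb : TsbStmt := by
  intro σ _ f c r p hR _
  obtain ⟨h, hh, D₀, hD₀, D, hD, hid⟩ := hR
  obtain ⟨D₀', hD₀', h0⟩ := hat r D₀ hD₀
  choose D' hD' hD1 using fun i => hat r (D i) (hD i)
  obtain ⟨G, hG, hG1⟩ := opl (σ := σ) (r := r) c
  set F := stab f r with hF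
  -- the identity with the lifted operators
  have key : ∀ n : ℕ, D₀' n (rename Sum.inl f * F ^ n) +
      ∑ i, D' i n (rename Sum.inl (pderiv i f) * F ^ n) =
        Polynomial.aeval (TT σ r n) c (rename Sum.inl h * F ^ n) := by
    intro n
    rw [hF, stab_pow, Finset.mul_sum, Finset.mul_sum, map_sum, map_sum]
    have e1 : ∀ i, D' i n (rename Sum.inl (pderiv i f) *
        ∑ k ∈ Finset.range (n + 1), (n.choose k : ℂ) •
          (rename Sum.inl (f ^ (n - k)) * QQ σ r ^ k)) =
        ∑ k ∈ Finset.range (n + 1), (n.choose k : ℂ) •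
          (rename Sum.inl (D i (n - k) (pderiv i f * f ^ (n - k))) * QQ σ r ^ k) := by
      intro i
      rw [Finset.mul_sum, map_sum]
      refine Finset.sum_congr rfl fun k hk => ?_
      rw [mul_smul_comm, map_smul, ← mul_assoc, ← map_mul,
        hD1 i n k (by rw [Finset.mem_range] at hk; omega) _ _ (dx_QQ_pow k) (th_QQ_pow k)]
    rw [Finset.sum_congr rfl fun i _ => e1 i, Finset.sum_comm, ← Finset.sum_add_distrib]
    refine Finset.sum_congr rfl fun k hk => ?_
    have hk' : k ≤ n := by rw [Finset.mem_range] at hk; omega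
    rw [mul_smul_comm, map_smul, ← mul_assoc, ← map_mul, h0 n k hk' _ _ (dx_QQ_pow k) (th_QQ_pow k),
      ← Finset.smul_sum, ← Finset.sum_mul, ← map_sum, ← smul_add, ← add_mul, ← map_add,
      ← pow_succ', ← hid (n - k), mul_smul_comm, map_smul, ← mul_assoc, ← map_mul,
      aeval_TT c n k hk' _ _ (th_QQ_pow k), mul_assoc (C _) h, map_mul _ (C _) _, rename_C]
    simp only [MvPolynomial.smul_eq_C_mul]
    ring
  refine ⟨rename Sum.inl h, ?_, D₀', hD₀', Sum.elim D' (Sum.elim (fun _ => 0)
    (fun j => - (D₀' * (fun _ => mulOp (W j))) -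
      (fun _ => dOp (Sum.inr (Sum.inl j))) * (G * (fun _ => mulOp (rename Sum.inl h))))), ?_, ?_⟩
  · rw [eval_rename]
    exact hh
  · rintro (i | j | j)
    · exact hD' i
    · exact zero_mem _
    · exact sub_mem (neg_mem (mul_mem hD₀' (mulOp_mem _)))
        (mul_mem (dOp_mem _) (mul_mem hG (mulOp_mem _)))
  · intro n
    rw [Fintype.sum_sum_type, Fintype.sum_sum_type]
    simp only [Sum.elim_inl, Sum.elim_inr]
    have k1 := key n
    rw [hG1] at k1
    have e2 : C ((c.comp (Polynomial.X + Polynomial.C (r : ℂ))).eval (n : ℂ)) * rename Sum.inl h *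
        F ^ n = (c.eval ((n : ℂ) + r)) • (rename Sum.inl h * F ^ n) := by
      rw [Polynomial.eval_comp, Polynomial.eval_add, Polynomial.eval_X, Polynomial.eval_C,
        MvPolynomial.smul_eq_C_mul, mul_assoc]
    have e3 : ∀ i : σ, D' i n (pderiv (Sum.inl i) F * F ^ n) =
        D' i n (rename Sum.inl (pderiv i f) * F ^ n) := by
      intro i
      rw [hF, dx_stab]
    have e4 : ∀ j : Fin r, (- (D₀' * (fun _ => mulOp (W j))) -
      (fun _ => dOp (Sum.inr (Sum.inl j))) * (G * (fun _ => mulOp (rename Sum.inl h))) :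
        OpF (SV σ r)) n (pderiv (Sum.inr (Sum.inr j)) F * F ^ n) =
        - D₀' n (W j * (U j * F ^ n)) - du j (G n (rename Sum.inl h * (U j * F ^ n))) := by
      intro j
      rw [hF, dv_stab]
      rfl
    have e5 : D₀' n (F ^ (n + 1)) = D₀' n (rename Sum.inl f * F ^ n) +
        ∑ j : Fin r, D₀' n (W j * (U j * F ^ n)) := by
      rw [← map_sum, ← map_add, pow_succ']
      congr 1
      have : (F : MvPolynomial (SV σ r) ℂ) = rename Sum.inl f + ∑ j : Fin r, U j * W j := rfl
      nth_rewrite 1 [this]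
      rw [add_mul, Finset.sum_mul]
      congr 1
      exact Finset.sum_congr rfl fun j _ => by ring
    rw [e2, Finset.sum_congr rfl fun i _ => e3 i, Finset.sum_congr rfl fun j _ => e4 j, e5,
      Finset.sum_sub_distrib, Finset.sum_neg_distrib]
    have e6 : ∑ j : Fin r, du j (G n (U j * (rename Sum.inl h * F ^ n))) =
        ∑ j : Fin r, du j (G n (rename Sum.inl h * (U j * F ^ n))) :=
      Finset.sum_congr rfl fun j _ => by rw [mul_left_comm]
    rw [e6] at k1
    have e7 : ∑ j : Fin r, ((0 : OpF (SV σ r)) n) (pderiv (Sum.inr (Sum.inl j)) F * F ^ n) = 0 :=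
      Finset.sum_eq_zero fun j _ => rfl
    rw [e7]
    linear_combination (norm := abel) - k1

end Pool.Agent.Helper8_CR.H67
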